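import Pool.Agent.KS6_64.DC.UpG
import Pool.Agent.KS6_64.DB.Samp2

/-!
# The inequality `0 < Lw p e u` for `e = p + 2`, `p + 4`
-/

set_option autoImplicit false

namespace Pool.Agent.KS6_64.DC

open Filter Topology Pool.Agent.KS6_64.CY Pool.Agent.KS6_64.CZ Pool.Agent.KS6_64.DA

/-- weighted AM-GM -/
theorem AG {a b c : ℝ} {m d : ℕ} (ha : 0 < a) (hb : 0 < b) (hc0 : 0 < c) (hm : 0 < m) (hd : 0 < d)
    (hc : c ^ (m + d) ≤ (a * (m + d) / d) ^ d * (b * (m + d) / m) ^ m) {x : ℝ} (hx : 0 < x) :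
    c * x ^ m ≤ a + b * x ^ (m + d) := by
  have m0 : (0 : ℝ) < m := by exact_mod_cast hm
  have d0 : (0 : ℝ) < d := by exact_mod_cast hd
  have md : (0 : ℝ) < m + d := by positivity
  have hB : 0 < b * x ^ (m + d) := by positivity
  have p1 : 0 < a * (m + d) / d := by positivity
  have p2 : 0 < b * x ^ (m + d) * (m + d) / m := by positivity
  have h := Real.geom_mean_le_arith_mean2_weighted (w₁ := d / (m + d)) (w₂ := m / (m + d))
    (p₁ := a * (m + d) / d) (p₂ := b * x ^ (m + d) * (m + d) / m)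
    (by positivity) (by positivity) p1.le p2.le (by field_simp; ring)
  have e1 : d / (m + d) * (a * (m + d) / d) + m / (m + d) * (b * x ^ (m + d) * (m + d) / m) =
      a + b * x ^ (m + d) := by field_simp
  rw [e1] at h
  refine le_trans ?_ h
  have hmd : m + d ≠ 0 := by omega
  apply le_of_pow_le_pow_left₀ hmd (by positivity)
  have e2 : ((a * (m + d) / d) ^ ((d : ℝ) / (m + d)) *
      (b * x ^ (m + d) * (m + d) / m) ^ ((m : ℝ) / (m + d))) ^ (m + d) =
      (a * (m + d) / d) ^ d * (b * x ^ (m + d) * (m + d) / m) ^ m := by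
    rw [mul_pow, ← Real.rpow_natCast, ← Real.rpow_natCast (_ ^ ((m : ℝ) / (m + d))),
      ← Real.rpow_mul p1.le, ← Real.rpow_mul p2.le]
    have e3 : (d : ℝ) / (m + d) * ((m + d : ℕ) : ℝ) = ((d : ℕ) : ℝ) := by
      push_cast; field_simp
    have e4 : (m : ℝ) / (m + d) * ((m + d : ℕ) : ℝ) = ((m : ℕ) : ℝ) := by
      push_cast; field_simp
    rw [e3, e4, Real.rpow_natCast, Real.rpow_natCast]
  rw [e2]
  have e5 : (b * x ^ (m + d) * (m + d) / m) ^ m = (b * (m + d) / m) ^ m * (x ^ m) ^ (m + d) := by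
    have : b * x ^ (m + d) * (m + d) / m = (b * (m + d) / m) * x ^ (m + d) := by ring
    rw [this, mul_pow, ← pow_mul, ← pow_mul, mul_comm (m + d) m]
  rw [e5, mul_pow, ← mul_assoc]
  exact mul_le_mul_of_nonneg_right hc (by positivity)

theorem HLof {p d : ℕ} (h3 : 2 < p) (hd : 0 < d) {a1 a2 : ℝ} (ha1 : 0 < a1) (ha2 : 0 < a2)
    (ha : a1 + a2 = 1)
    (C1 : ((p : ℝ) * ((p + d) * p - p)) ^ (p - 1 + d) ≤
      (a1 * ((p + d) * p - 1) * (p - 1 + d) / d) ^ d *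
        ((p + d) * ((p + d) * p - (p + d)) * (p - 1 + d) / (p - 1)) ^ (p - 1))
    (C2 : (((p : ℝ) - 1) * ((p + d) * p - p - 1)) ^ (p - 1 + d) ≤
      (a2 * ((p + d) * p - 1) * (p - 1 + d) / d) ^ d *
        ((p + d + 1) * ((p + d) * p - (p + d) - 1) * (p - 1 + d) / (p - 1)) ^ (p - 1)) :
    ∀ u, 0 < u → u < 1 → 0 < Lw p (p + d) u := by
  intro u u0 u1
  have hp3 : (3 : ℝ) ≤ p := by exact_mod_cast h3
  have d1 : (1 : ℝ) ≤ d := by exact_mod_cast hd
  have hm : ((p - 1 : ℕ) : ℝ) = p - 1 := by rw [Nat.cast_sub (by omega)]; norm_num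
  have q1 : (0 : ℝ) < (p + d) * p - p - (p + d) - 1 := by nlinarith
  have q2 : (0 : ℝ) < (p + d) * p - 1 := by nlinarith
  have g1 := AG (a := a1 * ((p + d) * p - 1)) (b := (p + d) * ((p + d) * p - (p + d)))
    (c := (p : ℝ) * ((p + d) * p - p)) (m := p - 1) (d := d) (by positivity)
    (mul_pos (by linarith) (by nlinarith)) (mul_pos (by linarith) (by nlinarith)) (by omega) hd
    (by rw [hm]; exact C1) u0
  have g2 := AG (a := a2 * ((p + d) * p - 1)) (b := (p + d + 1) * ((p + d) * p - (p + d) - 1))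
    (c := ((p : ℝ) - 1) * ((p + d) * p - p - 1)) (m := p - 1) (d := d) (by positivity)
    (mul_pos (by linarith) (by nlinarith)) (mul_pos (by linarith) (by nlinarith)) (by omega) hd
    (by rw [hm]; exact C2) u0
  have e1 : u ^ p = u * u ^ (p - 1) := (mul_pow_sub_one (by omega) u).symm
  have e2 : u ^ (p + 1) = u ^ 2 * u ^ (p - 1) := by rw [pow_succ, e1]; ring
  have e3 : u ^ (p + d) = u * u ^ (p - 1 + d) := by
    rw [← pow_succ']; congr 1; omega
  have e4 : u ^ (p + d + 1) = u ^ 2 * u ^ (p - 1 + d) := by rw [pow_succ, e3]; ring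
  have k1 := mul_le_mul_of_nonneg_left g1 u0.le
  have k2 := mul_le_mul_of_nonneg_left g2 (sq_nonneg u)
  have k3 : u ^ 2 * (a2 * ((p + d) * p - 1)) ≤ u * (a2 * ((p + d) * p - 1)) := by
    apply mul_le_mul_of_nonneg_right _ (by positivity)
    nlinarith
  have k4 : 0 < (d : ℝ) * ((p + d) * p - p - (p + d)) * u ^ (p + (p + d)) := by
    have : (0 : ℝ) < (p + d) * p - p - (p + d) := by linarith
    positivity
  have k5 : 0 < ((d : ℝ) + 1) * ((p + d) * p - p - (p + d) - 1) * u ^ (p + (p + d) + 1) := by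
    positivity
  have k6 : a2 * (((p : ℝ) + d) * p - 1) = ((p + d) * p - 1) - a1 * ((p + d) * p - 1) := by
    linear_combination (((p : ℝ) + d) * p - 1) * ha
  have k7 : u * (a2 * (((p : ℝ) + d) * p - 1)) =
      u * ((p + d) * p - 1) - u * (a1 * ((p + d) * p - 1)) := by rw [k6]; ring
  unfold Lw
  push_cast
  rw [e1, e2, e3, e4]
  linarith

/-- the first condition for large `p` -/
theorem C1of {p d : ℕ} (h3 : 2 < p) (hd : 0 < d) {a1 : ℝ} (ha1 : 0 < a1)
    (H : (d / a1) ^ d ≤ Real.exp (2 * d * (p - 1) / (p + d))) :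
    ((p : ℝ) * ((p + d) * p - p)) ^ (p - 1 + d) ≤
      (a1 * ((p + d) * p - 1) * (p - 1 + d) / d) ^ d *
        ((p + d) * ((p + d) * p - (p + d)) * (p - 1 + d) / (p - 1)) ^ (p - 1) := by
  have hp3 : (3 : ℝ) ≤ p := by exact_mod_cast h3
  have d1 : (1 : ℝ) ≤ d := by exact_mod_cast hd
  have d0 : (0 : ℝ) < d := by linarith
  have hm : ((p - 1 : ℕ) : ℝ) = p - 1 := by rw [Nat.cast_sub (by omega)]; norm_num
  have p1 : (0 : ℝ) < p - 1 := by linarith
  have pd : (0 : ℝ) < p - 1 + d := by linarith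
  have h1 : (p : ℝ) * ((p + d) * p - p) = p ^ 2 * (p - 1 + d) := by ring
  have h2 : ((p : ℝ) + d) * ((p + d) * p - (p + d)) * (p - 1 + d) / (p - 1) =
      (p + d) ^ 2 * (p - 1 + d) := by field_simp
  have h4 : a1 * (((p : ℝ) + d) * p - 1) * (p - 1 + d) / d = a1 / d * ((p + d) * p - 1) * (p - 1 + d) := by
    ring
  rw [h1, h2, h4]
  have h5 : ((p : ℝ) ^ 2) ^ d ≤ ((p + d) * p - 1) ^ d := by
    apply pow_le_pow_left₀ (by positivity)
    nlinarith
  have h6 : Real.exp (2 * d * (p - 1) / (p + d)) * ((p : ℝ) ^ 2) ^ (p - 1) ≤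
      ((p + d) ^ 2) ^ (p - 1) := by
    have e1 : Real.exp (d / (p + d)) * (p : ℝ) ≤ p + d := by
      have h7 := Real.add_one_le_exp (-((d : ℝ) / (p + d)))
      have h8 : -((d : ℝ) / (p + d)) + 1 = p / (p + d) := by field_simp; ring
      rw [h8, Real.exp_neg, div_le_iff₀ (by positivity)] at h7
      have h9 := Real.exp_pos ((d : ℝ) / (p + d))
      calc Real.exp (d / (p + d)) * (p : ℝ) ≤ Real.exp (d / (p + d)) *
            ((Real.exp (d / (p + d)))⁻¹ * (p + d)) := mul_le_mul_of_nonneg_left h7 h9.le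
        _ = p + d := by field_simp
    have e2 : Real.exp (2 * d * (p - 1) / (p + d)) = (Real.exp (d / (p + d)) ^ 2) ^ (p - 1) := by
      rw [← Real.exp_nat_mul, ← Real.exp_nat_mul, hm]
      congr 1
      push_cast
      ring
    rw [e2, ← mul_pow, ← mul_pow]
    exact pow_le_pow_left₀ (by positivity) (pow_le_pow_left₀ (by positivity) e1 2) _
  have h7 : (a1 / d) ^ d * (d / a1) ^ d = 1 := by
    rw [← mul_pow]
    have : a1 / d * (d / a1) = 1 := by field_simp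
    rw [this, one_pow]
  have h8 : ((p : ℝ) ^ 2) ^ (p - 1) ≤ (a1 / d) ^ d * ((p + d) ^ 2) ^ (p - 1) := by
    have g1 := mul_le_mul_of_nonneg_right H (show (0 : ℝ) ≤ ((p : ℝ) ^ 2) ^ (p - 1) by positivity)
    have g2 := mul_le_mul_of_nonneg_left (g1.trans h6) (show (0 : ℝ) ≤ (a1 / d) ^ d by positivity)
    calc ((p : ℝ) ^ 2) ^ (p - 1) = (a1 / d) ^ d * ((d / a1) ^ d * ((p : ℝ) ^ 2) ^ (p - 1)) := by
          rw [← mul_assoc, h7, one_mul]
      _ ≤ _ := g2
  rw [mul_pow, pow_add ((p : ℝ) ^ 2), pow_add ((p : ℝ) - 1 + d), mul_pow, mul_pow, mul_pow]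
  have g3 := mul_le_mul h8 h5 (by positivity) (by positivity)
  have g4 : (0 : ℝ) ≤ ((p : ℝ) - 1 + d) ^ (p - 1) * ((p : ℝ) - 1 + d) ^ d := by positivity
  have g5 := mul_le_mul_of_nonneg_right g3 g4
  calc _ = ((p : ℝ) ^ 2) ^ (p - 1) * ((p : ℝ) ^ 2) ^ d *
        (((p : ℝ) - 1 + d) ^ (p - 1) * ((p : ℝ) - 1 + d) ^ d) := by ring
    _ ≤ _ := g5
    _ = _ := by ring

theorem PW (K W : ℝ) (n d : ℕ) : (K * W) ^ (n + d) = K ^ n * K ^ d * (W ^ n * W ^ d) := by
  rw [mul_pow, pow_add, pow_add]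

theorem PW2 (A B S W : ℝ) (n d : ℕ) :
    (A * B * W) ^ d * (S * W) ^ n = A ^ d * S ^ n * B ^ d * (W ^ n * W ^ d) := by
  rw [mul_pow, mul_pow, mul_pow]; ring

/-- the second condition for large `p` -/
theorem C2of {p d : ℕ} (h3 : 2 < p) (hd : 0 < d) {a2 : ℝ} (ha2 : 0 < a2)
    (H : (d / a2) ^ d ≤ Real.exp ((p - 1) * (((p + d) ^ 2 - p * (p - 1)) / (p + d) ^ 2))) :
    (((p : ℝ) - 1) * ((p + d) * p - p - 1)) ^ (p - 1 + d) ≤
      (a2 * ((p + d) * p - 1) * (p - 1 + d) / d) ^ d *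
        ((p + d + 1) * ((p + d) * p - (p + d) - 1) * (p - 1 + d) / (p - 1)) ^ (p - 1) := by
  have hp3 : (3 : ℝ) ≤ p := by exact_mod_cast h3
  have d1 : (1 : ℝ) ≤ d := by exact_mod_cast hd
  have d0 : (0 : ℝ) < d := by linarith
  have hm : ((p - 1 : ℕ) : ℝ) = p - 1 := by rw [Nat.cast_sub (by omega)]; norm_num
  have p1 : (0 : ℝ) < p - 1 := by linarith
  have pd : (0 : ℝ) < p - 1 + d := by linarith
  have pp : (0 : ℝ) < p * (p - 1) := by nlinarith
  have i1 : (((p : ℝ) - 1) * ((p + d) * p - p - 1)) ^ (p - 1 + d) ≤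
      ((p * (p - 1)) * (p - 1 + d)) ^ (p - 1 + d) := by
    apply pow_le_pow_left₀ (mul_nonneg p1.le (by nlinarith))
    nlinarith
  have i2 : (((p : ℝ) + d) ^ 2 * (p - 1 + d)) ^ (p - 1) ≤
      ((p + d + 1) * ((p + d) * p - (p + d) - 1) * (p - 1 + d) / (p - 1)) ^ (p - 1) := by
    apply pow_le_pow_left₀ (by positivity)
    rw [le_div_iff₀ p1]
    have : ((p : ℝ) + d) ^ 2 * (p - 1) ≤ (p + d + 1) * ((p + d) * p - (p + d) - 1) := by nlinarith
    have := mul_le_mul_of_nonneg_right this pd.le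
    linarith
  have h4 : a2 * (((p : ℝ) + d) * p - 1) * (p - 1 + d) / d = a2 / d * ((p + d) * p - 1) * (p - 1 + d) := by
    ring
  have h5 : ((p : ℝ) * (p - 1)) ^ d ≤ ((p + d) * p - 1) ^ d := by
    apply pow_le_pow_left₀ (by positivity)
    nlinarith
  have h6 : Real.exp ((p - 1) * (((p + d) ^ 2 - p * (p - 1)) / (p + d) ^ 2)) *
      ((p : ℝ) * (p - 1)) ^ (p - 1) ≤ ((p + d) ^ 2) ^ (p - 1) := by
    set z : ℝ := ((p + d) ^ 2 - p * (p - 1)) / (p + d) ^ 2 with hz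
    have e1 : Real.exp z * ((p : ℝ) * (p - 1)) ≤ (p + d) ^ 2 := by
      have h7 := Real.add_one_le_exp (-z)
      have h8 : -z + 1 = (p * (p - 1)) / (p + d) ^ 2 := by rw [hz]; field_simp; ring
      rw [h8, Real.exp_neg, div_le_iff₀ (by positivity)] at h7
      have h9 := Real.exp_pos z
      calc Real.exp z * ((p : ℝ) * (p - 1)) ≤ Real.exp z * ((Real.exp z)⁻¹ * (p + d) ^ 2) :=
            mul_le_mul_of_nonneg_left h7 h9.le
        _ = (p + d) ^ 2 := by field_simp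
    have e2 : Real.exp ((p - 1) * z) = Real.exp z ^ (p - 1) := by
      rw [← Real.exp_nat_mul, hm]
    rw [e2, ← mul_pow]
    exact pow_le_pow_left₀ (by positivity) e1 _
  have h7 : (a2 / d) ^ d * (d / a2) ^ d = 1 := by
    rw [← mul_pow]
    have : a2 / d * (d / a2) = 1 := by field_simp
    rw [this, one_pow]
  have h8 : ((p : ℝ) * (p - 1)) ^ (p - 1) ≤ (a2 / d) ^ d * ((p + d) ^ 2) ^ (p - 1) := by
    have g1 := mul_le_mul_of_nonneg_right H
      (show (0 : ℝ) ≤ ((p : ℝ) * (p - 1)) ^ (p - 1) by positivity)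
    have g2 := mul_le_mul_of_nonneg_left (g1.trans h6) (show (0 : ℝ) ≤ (a2 / d) ^ d by positivity)
    calc ((p : ℝ) * (p - 1)) ^ (p - 1) =
          (a2 / d) ^ d * ((d / a2) ^ d * ((p : ℝ) * (p - 1)) ^ (p - 1)) := by
          rw [← mul_assoc, h7, one_mul]
      _ ≤ _ := g2
  refine i1.trans (le_trans ?_ (mul_le_mul_of_nonneg_left i2 ?_))
  · rw [h4, PW, PW2]
    have g3 := mul_le_mul h8 h5 (by positivity) (by positivity)
    have g4 : (0 : ℝ) ≤ ((p : ℝ) - 1 + d) ^ (p - 1) * ((p : ℝ) - 1 + d) ^ d := by positivity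
    exact mul_le_mul_of_nonneg_right g3 g4
  · have : (0 : ℝ) ≤ ((p : ℝ) + d) * p - 1 := by nlinarith
    positivity

end Pool.Agent.KS6_64.DC
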