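import Pool.Agent.KS6_64.DC.AG

/-!
# The inequality `0 < Lw p e u` in all the cases needed
-/

set_option autoImplicit false

namespace Pool.Agent.KS6_64.DC

open Filter Topology Pool.Agent.KS6_64.CY Pool.Agent.KS6_64.CZ Pool.Agent.KS6_64.DA

theorem le_exp_nat {c : ℝ} {n : ℕ} (h : c ≤ 2.7182818283 ^ n) : c ≤ Real.exp n := by
  refine h.trans ?_
  rw [← mul_one (n : ℝ), Real.exp_nat_mul]
  exact pow_le_pow_left₀ (by norm_num) Real.exp_one_gt_d9.le n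

theorem L2a {p : ℕ} (h11 : 11 ≤ p) : ∀ u, 0 < u → u < 1 → 0 < Lw p (p + 2) u := by
  have hp11 : (11 : ℝ) ≤ p := by exact_mod_cast h11
  have h16 : (((2 : ℕ) : ℝ) / (1 / 2)) ^ 2 ≤ Real.exp ((3 : ℕ) : ℝ) := by
    apply le_exp_nat; norm_num
  refine HLof (d := 2) (a1 := 1 / 2) (a2 := 1 / 2) (by omega) (by norm_num) (by norm_num)
    (by norm_num) (by norm_num) ?_ ?_
  · apply C1of (by omega) (by norm_num) (by norm_num)
    refine h16.trans (Real.exp_le_exp.2 ?_)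
    push_cast
    rw [le_div_iff₀ (by linarith)]
    linarith
  · apply C2of (by omega) (by norm_num) (by norm_num)
    refine h16.trans (Real.exp_le_exp.2 ?_)
    push_cast
    rw [mul_div_assoc', le_div_iff₀ (by positivity)]
    nlinarith

theorem chk : ∀ k < 500, 10 ≤ k →
    200 ^ 4 * ((k + 2) ^ 2 * (k + 5)) ^ (k + 5) ≤
      (31 * (k * k + 8 * k + 11) * (k + 5)) ^ 4 * ((k + 6) ^ 2 * (k + 5)) ^ (k + 1) ∧
    200 ^ 4 * ((k + 1) * (k * k + 7 * k + 9)) ^ (k + 5) * (k + 1) ^ (k + 1) ≤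
      (19 * (k * k + 8 * k + 11) * (k + 5)) ^ 4 *
        ((k + 7) * (k * k + 7 * k + 5) * (k + 5)) ^ (k + 1) := by
  decide +kernel

theorem L4small {p : ℕ} (h13 : 12 ≤ p) (h : p < 502) : ∀ u, 0 < u → u < 1 → 0 < Lw p (p + 4) u := by
  obtain ⟨k, rfl⟩ : ∃ k, p = k + 2 := ⟨p - 2, by omega⟩
  obtain ⟨c1, c2⟩ := chk k (by omega) (by omega)
  have c1' : ((200 ^ 4 * ((k + 2) ^ 2 * (k + 5)) ^ (k + 5) : ℕ) : ℝ) ≤
      (((31 * (k * k + 8 * k + 11) * (k + 5)) ^ 4 * ((k + 6) ^ 2 * (k + 5)) ^ (k + 1) : ℕ) : ℝ) := by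
    exact_mod_cast c1
  have c2' : ((200 ^ 4 * ((k + 1) * (k * k + 7 * k + 9)) ^ (k + 5) * (k + 1) ^ (k + 1) : ℕ) : ℝ) ≤
      (((19 * (k * k + 8 * k + 11) * (k + 5)) ^ 4 *
        ((k + 7) * (k * k + 7 * k + 5) * (k + 5)) ^ (k + 1) : ℕ) : ℝ) := by
    exact_mod_cast c2
  simp only [Nat.cast_mul, Nat.cast_pow, Nat.cast_add, Nat.cast_ofNat, Nat.cast_one] at c1' c2'
  have k1 : (0 : ℝ) < (k : ℝ) + 1 := by positivity
  have hk : (10 : ℝ) ≤ k := by exact_mod_cast (by omega : 10 ≤ k)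
  have n1 : k + 2 - 1 + 4 = k + 5 := by omega
  have n2 : k + 2 - 1 = k + 1 := by omega
  refine HLof (d := 4) (a1 := 31 / 50) (a2 := 19 / 50) (by omega) (by norm_num) (by norm_num)
    (by norm_num) (by norm_num) ?_ ?_
  · rw [n1, n2]
    push_cast
    have e1 : ((k : ℝ) + 2) * ((k + 2 + 4) * (k + 2) - (k + 2)) = (k + 2) ^ 2 * (k + 5) := by ring
    have e2 : (31 / 50 * (((k : ℝ) + 2 + 4) * (k + 2) - 1) * (k + 2 - 1 + 4) / 4) =
        (31 * (k * k + 8 * k + 11) * (k + 5)) / 200 := by ring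
    have e3 : (((k : ℝ) + 2 + 4) * ((k + 2 + 4) * (k + 2) - (k + 2 + 4)) * (k + 2 - 1 + 4) /
        (k + 2 - 1)) = (k + 6) ^ 2 * (k + 5) := by
      have : (k : ℝ) + 2 - 1 = k + 1 := by ring
      rw [this]
      field_simp
      ring
    rw [e1, e2, e3, div_pow, div_mul_eq_mul_div, le_div_iff₀ (by positivity)]
    linarith
  · rw [n1, n2]
    push_cast
    have e1 : ((k : ℝ) + 2 - 1) * ((k + 2 + 4) * (k + 2) - (k + 2) - 1) =
        (k + 1) * (k * k + 7 * k + 9) := by ring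
    have e2 : (19 / 50 * (((k : ℝ) + 2 + 4) * (k + 2) - 1) * (k + 2 - 1 + 4) / 4) =
        (19 * (k * k + 8 * k + 11) * (k + 5)) / 200 := by ring
    have e3 : (((k : ℝ) + 2 + 4 + 1) * ((k + 2 + 4) * (k + 2) - (k + 2 + 4) - 1) * (k + 2 - 1 + 4) /
        (k + 2 - 1)) = ((k + 7) * (k * k + 7 * k + 5) * (k + 5)) / (k + 1) := by
      have : (k : ℝ) + 2 - 1 = k + 1 := by ring
      rw [this]
      congr 1
      ring
    rw [e1, e2, e3, div_pow, div_pow, div_mul_div_comm, le_div_iff₀ (by positivity)]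
    linarith

theorem L4large {p : ℕ} (h : 500 ≤ p) : ∀ u, 0 < u → u < 1 → 0 < Lw p (p + 4) u := by
  have hp : (500 : ℝ) ≤ p := by exact_mod_cast h
  refine HLof (d := 4) (a1 := 14 / 25) (a2 := 11 / 25) (by omega) (by norm_num) (by norm_num)
    (by norm_num) (by norm_num) ?_ ?_
  · apply C1of (by omega) (by norm_num) (by norm_num)
    have h1 : (((4 : ℕ) : ℝ) / (14 / 25)) ^ 4 ≤ Real.exp (71 / 9) := by
      apply le_of_pow_le_pow_left₀ (n := 9) (by norm_num) (Real.exp_pos _).le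
      rw [← Real.exp_nat_mul]
      have e : ((9 : ℕ) : ℝ) * (71 / 9) = ((71 : ℕ) : ℝ) := by norm_num
      rw [e]
      apply le_exp_nat
      norm_num
    refine h1.trans (Real.exp_le_exp.2 ?_)
    push_cast
    rw [div_le_div_iff₀ (by norm_num) (by linarith)]
    linarith
  · apply C2of (by omega) (by norm_num) (by norm_num)
    have h1 : (((4 : ℕ) : ℝ) / (11 / 25)) ^ 4 ≤ Real.exp (177 / 20) := by
      apply le_of_pow_le_pow_left₀ (n := 20) (by norm_num) (Real.exp_pos _).le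
      rw [← Real.exp_nat_mul]
      have e : ((20 : ℕ) : ℝ) * (177 / 20) = ((177 : ℕ) : ℝ) := by norm_num
      rw [e]
      apply le_exp_nat
      norm_num
    refine h1.trans (Real.exp_le_exp.2 ?_)
    push_cast
    rw [mul_div_assoc', div_le_div_iff₀ (by norm_num) (by positivity)]
    nlinarith

theorem L4 {p : ℕ} (h13 : 12 ≤ p) : ∀ u, 0 < u → u < 1 → 0 < Lw p (p + 4) u := by
  rcases Nat.lt_or_ge p 500 with h | h
  · exact L4small h13 (by omega)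
  · exact L4large h

/-- the cell of `u` -/
theorem cell {u : ℝ} (u0 : 0 < u) (u1 : u < 1) : ∃ i : ℕ, i < 200 ∧ (i : ℝ) ≤ 200 * u ∧
    200 * u ≤ i + 1 := by
  refine ⟨⌊200 * u⌋₊, ?_, Nat.floor_le (by positivity), (Nat.lt_floor_add_one _).le⟩
  rw [Nat.floor_lt (by positivity)]
  push_cast
  linarith

theorem chk5 : ∀ i < 200, 200 * (i + 1) ^ 4 * 200 ^ 10 + 156 * (i + 1) ^ 5 * 200 ^ 9 <
    44 * 200 ^ 14 + 324 * i ^ 8 * 200 ^ 6 + 350 * i ^ 9 * 200 ^ 5 + 124 * i ^ 13 * 200 +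
      150 * i ^ 14 := by
  decide +kernel

theorem chk7 : ∀ i < 200, 490 * (i + 1) ^ 6 * 200 ^ 12 + 414 * (i + 1) ^ 7 * 200 ^ 11 <
    76 * 200 ^ 18 + 726 * i ^ 10 * 200 ^ 8 + 780 * i ^ 11 * 200 ^ 7 + 236 * i ^ 17 * 200 +
      290 * i ^ 18 := by
  decide +kernel

theorem L5 : ∀ u, 0 < u → u < 1 → 0 < Lw 5 9 u := by
  intro u u0 u1
  obtain ⟨i, hi, h1, h2⟩ := cell u0 u1
  have hc : ((200 * (i + 1) ^ 4 * 200 ^ 10 + 156 * (i + 1) ^ 5 * 200 ^ 9 : ℕ) : ℝ) <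
      ((44 * 200 ^ 14 + 324 * i ^ 8 * 200 ^ 6 + 350 * i ^ 9 * 200 ^ 5 + 124 * i ^ 13 * 200 +
      150 * i ^ 14 : ℕ) : ℝ) := by exact_mod_cast chk5 i hi
  simp only [Nat.cast_mul, Nat.cast_pow, Nat.cast_add, Nat.cast_ofNat, Nat.cast_one] at hc
  have lo : ∀ n : ℕ, (i : ℝ) ^ n ≤ 200 ^ n * u ^ n := fun n => by
    rw [← mul_pow]; exact pow_le_pow_left₀ (by positivity) h1 n
  have hi' : ∀ n : ℕ, 200 ^ n * u ^ n ≤ ((i : ℝ) + 1) ^ n := fun n => by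
    rw [← mul_pow]; exact pow_le_pow_left₀ (by positivity) h2 n
  have a1 := lo 8
  have a2 := lo 9
  have a3 := lo 13
  have a4 := lo 14
  have b1 := hi' 4
  have b2 := hi' 5
  have key : 0 < 44 + 324 * u ^ 8 + 350 * u ^ 9 + 124 * u ^ 13 + 150 * u ^ 14 - 200 * u ^ 4 -
      156 * u ^ 5 := by
    norm_num at a1 a2 a3 a4 b1 b2 hc
    linarith
  have e : Lw 5 9 u = u * (44 + 324 * u ^ 8 + 350 * u ^ 9 + 124 * u ^ 13 + 150 * u ^ 14 -
      200 * u ^ 4 - 156 * u ^ 5) := by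
    unfold Lw; push_cast; ring
  rw [e]
  exact mul_pos u0 key

theorem L7 : ∀ u, 0 < u → u < 1 → 0 < Lw 7 11 u := by
  intro u u0 u1
  obtain ⟨i, hi, h1, h2⟩ := cell u0 u1
  have hc : ((490 * (i + 1) ^ 6 * 200 ^ 12 + 414 * (i + 1) ^ 7 * 200 ^ 11 : ℕ) : ℝ) <
      ((76 * 200 ^ 18 + 726 * i ^ 10 * 200 ^ 8 + 780 * i ^ 11 * 200 ^ 7 + 236 * i ^ 17 * 200 +
      290 * i ^ 18 : ℕ) : ℝ) := by exact_mod_cast chk7 i hi
  simp only [Nat.cast_mul, Nat.cast_pow, Nat.cast_add, Nat.cast_ofNat, Nat.cast_one] at hc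
  have lo : ∀ n : ℕ, (i : ℝ) ^ n ≤ 200 ^ n * u ^ n := fun n => by
    rw [← mul_pow]; exact pow_le_pow_left₀ (by positivity) h1 n
  have hi' : ∀ n : ℕ, 200 ^ n * u ^ n ≤ ((i : ℝ) + 1) ^ n := fun n => by
    rw [← mul_pow]; exact pow_le_pow_left₀ (by positivity) h2 n
  have a1 := lo 10
  have a2 := lo 11
  have a3 := lo 17
  have a4 := lo 18
  have b1 := hi' 6
  have b2 := hi' 7
  have key : 0 < 76 + 726 * u ^ 10 + 780 * u ^ 11 + 236 * u ^ 17 + 290 * u ^ 18 - 490 * u ^ 6 -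
      414 * u ^ 7 := by
    norm_num at a1 a2 a3 a4 b1 b2 hc
    linarith
  have e : Lw 7 11 u = u * (76 + 726 * u ^ 10 + 780 * u ^ 11 + 236 * u ^ 17 + 290 * u ^ 18 -
      490 * u ^ 6 - 414 * u ^ 7) := by
    unfold Lw; push_cast; ring
  rw [e]
  exact mul_pos u0 key

end Pool.Agent.KS6_64.DC
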