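import Mathlib

/-!
# Sparse polynomials with `u P'(u) - k P(u) > 0` on `(0, 1)` have at most one zero there
-/

set_option autoImplicit false

namespace Pool.Agent.KS6_64.DC

open Filter Topology

/-- the sum of `c * u ^ i` over the list of the pairs `(c, i)` -/
def ev (l : List (ℝ × ℕ)) (u : ℝ) : ℝ := (l.map fun t => t.1 * u ^ t.2).sum
/-- its derivative -/
def ev' (l : List (ℝ × ℕ)) (u : ℝ) : ℝ := (l.map fun t => t.1 * (t.2 * u ^ (t.2 - 1))).sum
/-- `u P'(u) - k P(u)` -/
def ew (l : List (ℝ × ℕ)) (k u : ℝ) : ℝ := (l.map fun t => t.1 * (t.2 - k) * u ^ t.2).sum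

theorem ev_der (l : List (ℝ × ℕ)) (u : ℝ) : HasDerivAt (ev l) (ev' l u) u := by
  induction l with
  | nil =>
    have : ev [] = fun _ => (0 : ℝ) := by funext x; simp [ev]
    rw [this]
    simpa [ev'] using hasDerivAt_const u (0 : ℝ)
  | cons t l ih =>
    have h1 := ((hasDerivAt_pow t.2 u).const_mul t.1).add ih
    have e1 : ev (t :: l) = (fun x => t.1 * x ^ t.2) + ev l := by
      funext x; simp [ev]
    have e2 : ev' (t :: l) u = t.1 * (t.2 * u ^ (t.2 - 1)) + ev' l u := by simp [ev']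
    rw [e1, e2]
    exact h1

theorem ew_eq (l : List (ℝ × ℕ)) (k u : ℝ) : u * ev' l u - k * ev l u = ew l k u := by
  induction l with
  | nil => simp [ev, ev', ew]
  | cons t l ih =>
    have e1 : ev (t :: l) u = t.1 * u ^ t.2 + ev l u := by simp [ev]
    have e2 : ev' (t :: l) u = t.1 * (t.2 * u ^ (t.2 - 1)) + ev' l u := by simp [ev']
    have e3 : ew (t :: l) k u = t.1 * (t.2 - k) * u ^ t.2 + ew l k u := by simp [ew]
    rw [e1, e2, e3, ← ih]
    have h : u * (t.2 * u ^ (t.2 - 1)) = t.2 * u ^ t.2 := by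
      rcases Nat.eq_zero_or_pos t.2 with h | h
      · rw [h]; simp
      · have := mul_pow_sub_one h.ne' u
        rw [← this]; ring
    linear_combination t.1 * h

theorem uniq {l : List (ℝ × ℕ)} {k : ℕ} (hW : ∀ u, 0 < u → u < 1 → 0 < ew l k u) {a b : ℝ}
    (a0 : 0 < a) (hab : a < b) (b1 : b < 1) (ha : ev l a = 0) (hb : ev l b = 0) : False := by
  have hder : ∀ u, 0 < u → HasDerivAt (fun u => ev l u / u ^ k)
      ((ev' l u * u ^ k - ev l u * (k * u ^ (k - 1))) / (u ^ k) ^ 2) u := fun u hu =>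
    (ev_der l u).div (hasDerivAt_pow k u) (pow_pos hu k).ne'
  obtain ⟨c, ⟨hc1, hc2⟩, hc⟩ := exists_hasDerivAt_eq_zero hab
    (fun u hu => (hder u (a0.trans_le hu.1)).continuousAt.continuousWithinAt)
    (by simp only [ha, hb]; simp) (fun u hu => hder u (a0.trans hu.1))
  have c0 : 0 < c := a0.trans hc1
  have hn : (c ^ k) ^ 2 ≠ 0 := by positivity
  rw [div_eq_zero_iff, or_iff_left hn] at hc
  have h : c * (k * c ^ (k - 1)) = k * c ^ k := by
    rcases Nat.eq_zero_or_pos k with h | h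
    · rw [h]; simp
    · have := mul_pow_sub_one h.ne' c
      rw [← this]; ring
  have h1 : c ^ k * ew l k c = 0 := by
    rw [← ew_eq]
    linear_combination c * hc + ev l c * h
  have h2 := mul_pos (pow_pos c0 k) (hW c c0 (hc2.trans b1))
  linarith

end Pool.Agent.KS6_64.DC
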