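import Pool.Agent.KS6_64.DC.Cases
import Pool.Agent.KS6_64.DA.LowP
import Pool.Agent.KS6_64.DA.Step2
import Pool.Agent.KS6_64.DA.PairE
import Pool.Agent.KS6_64.DA.TwoE

/-!
# Every pair of odd primes `p < p'`: the ratio `e` and the two large primes
-/

set_option autoImplicit false

namespace Pool.Agent.KS6_64.DC

open Filter Topology Pool.Agent.KS6_64.CY Pool.Agent.KS6_64.CZ Pool.Agent.KS6_64.DA
  Pool.Agent.KS6_64.DB

/-- `g(-y) + e g(-y ^ e)` has the signs `-, +, -` at three points of `(0, 1)` -/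
def Samp (p e : ℕ) : Prop := ∃ y1 y2 y3 : ℝ, 0 < y3 ∧ y3 < y2 ∧ y2 < y1 ∧ y1 < 1 ∧
  GE (fun x => gg p (-x)) e y1 < 0 ∧ 0 < GE (fun x => gg p (-x)) e y2 ∧
  GE (fun x => gg p (-x)) e y3 < 0

theorem samp39 : Samp 3 9 := by
  have hp : Nat.Prime 3 := by norm_num
  have h3 : 2 < 3 := by norm_num
  obtain ⟨a1, a2, a3⟩ := root_facts (z := 1 / 2) (by norm_num) (by norm_num) (n := 3) (by norm_num)
  obtain ⟨b1, b2, b3⟩ := root_facts (z := 1 / 4) (by norm_num) (by norm_num) (n := 3) (by norm_num)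
  set y1 : ℝ := (1 / 2 : ℝ) ^ (((3 : ℕ) : ℝ)⁻¹) with hy1
  set y2 : ℝ := (1 / 4 : ℝ) ^ (((3 : ℕ) : ℝ)⁻¹) with hy2
  have a4 : y1 ^ 9 = 1 / 8 := by
    have : y1 ^ 9 = (y1 ^ 3) ^ 3 := by ring
    rw [this, a1]; norm_num
  have b4 : y2 ^ 9 = 1 / 64 := by
    have : y2 ^ 9 = (y2 ^ 3) ^ 3 := by ring
    rw [this, b1]; norm_num
  refine ⟨y1, y2, 1 / 6, by norm_num, ?_, ?_, a3, ?_, ?_, ?_⟩
  · apply lt_of_pow_lt_pow_left₀ 3 b2.le
    rw [b1]; norm_num
  · apply lt_of_pow_lt_pow_left₀ 3 a2.le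
    rw [a1, b1]; norm_num
  · show gg 3 (-y1) + ((9 : ℕ) : ℝ) * gg 3 (-(y1 ^ 9)) < 0
    rw [a4, hneg hp h3 a2.le, hneg hp h3 (by norm_num), a1]
    have h1 : 1 / 2 ≤ y1 := by
      have : y1 ^ 3 ≤ y1 := pow_le_of_le_one a2.le a3.le (by norm_num)
      rw [a1] at this; exact this
    have u1 : 1 / 3 ≤ y1 / (1 + y1) := by
      rw [div_le_div_iff₀ (by norm_num) (by positivity)]
      linarith
    norm_num at u1 ⊢
    linarith
  · show 0 < gg 3 (-y2) + ((9 : ℕ) : ℝ) * gg 3 (-(y2 ^ 9))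
    rw [b4, hneg hp h3 b2.le, hneg hp h3 (by norm_num), b1]
    have h1 : y2 ≤ 2 / 3 := by
      apply le_of_pow_le_pow_left₀ (n := 3) (by norm_num) (by norm_num)
      rw [b1]; norm_num
    have u1 : y2 / (1 + y2) ≤ 2 / 5 := by
      rw [div_le_div_iff₀ (by positivity) (by norm_num)]
      linarith
    norm_num at u1 ⊢
    linarith
  · show gg 3 (-(1 / 6)) + ((9 : ℕ) : ℝ) * gg 3 (-((1 / 6) ^ 9)) < 0
    have d1 := hneg_lt hp h3 (u := 1 / 6) (by norm_num) le_rfl (by norm_num)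
    have d2 := hneg_lt hp h3 (u := (1 / 6) ^ 9) (by norm_num) (by norm_num) (by norm_num)
    have : ((9 : ℕ) : ℝ) * gg 3 (-((1 / 6) ^ 9)) < 0 := mul_neg_of_pos_of_neg (by norm_num) d2
    linarith

/-- the choice of `e` -/
theorem exists_e {p p' : ℕ} (hp : p.Prime) (hp' : p'.Prime) (h3 : 2 < p) (hpp : p < p') :
    ∃ e, Odd e ∧ 2 ≤ e ∧ Samp p e ∧ UP (GE (gg p') e) (GE' (gg' p') e) 1 := by
  have op : Odd p := hp.odd_of_ne_two (by omega)
  have op' : Odd p' := hp'.odd_of_ne_two (by omega)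
  have h3' : 2 < p' := by omega
  rcases Nat.lt_or_ge p' (p + 6) with h | h
  · have hc : p' = p + 2 ∨ p' = p + 4 := by
      obtain ⟨a, ha⟩ := op
      obtain ⟨b, hb⟩ := op'
      omega
    rcases hc with rfl | rfl
    · -- `p' = p + 2`
      rcases Nat.lt_or_ge p 10 with h10 | h10
      · interval_cases p
        · exact ⟨9, by decide, by norm_num, samp39,
            up_GE2 hp' (by norm_num) (by decide) (by norm_num) L5⟩
        · exact absurd hp (by norm_num)
        · exact ⟨11, by decide, by norm_num, samp2 hp h3 (by norm_num) (by norm_num),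
            up_GE2 hp' (by norm_num) (by decide) (by norm_num) L7⟩
        · exact absurd hp (by norm_num)
        · exact absurd hp' (by norm_num)
        · exact absurd hp (by norm_num)
        · exact absurd hp (by norm_num)
      · have oe : Odd (p + 2 + 4) := op'.add_even (by decide)
        exact ⟨p + 2 + 4, oe, by omega, samp2 hp h3 (by omega) (by omega),
          up_GE2 hp' h3' oe (by omega) (L4 (by omega))⟩
    · -- `p' = p + 4`
      rcases Nat.lt_or_ge p 7 with h7 | h7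
      · interval_cases p
        · exact ⟨11, by decide, by norm_num, samp2 hp h3 (by norm_num) (by norm_num),
            up_GE2 hp' (by norm_num) (by decide) (by norm_num) L7⟩
        · exact absurd hp (by norm_num)
        · exact absurd hp' (by norm_num)
        · exact absurd hp (by norm_num)
      · have oe : Odd (p + 4 + 2) := op'.add_even (by decide)
        exact ⟨p + 4 + 2, oe, by omega, samp2 hp h3 (by omega) (by omega),
          up_GE2 hp' h3' oe (by omega) (L2a (by omega))⟩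
  · have h11 : 11 ≤ p' := by
      rcases Nat.lt_or_ge p' 11 with h | h
      · have h9 : 9 ≤ p' := by omega
        exfalso
        interval_cases p'
        · exact absurd hp' (by norm_num)
        · exact absurd hp' (by norm_num)
      · exact h
    exact ⟨p', op', by omega, samp2 hp h3 h h11, up_GE hp' h3'⟩

theorem negL3 {p e : ℕ} (hp : p.Prime) (h3 : 2 < p) (oe : Odd e) (hs : Samp p e) :
    ∃ t : ℝ, 0 < t ∧ t ≤ 1 ∧
    ∀ t' ≤ t, ∀ᶠ q : ℕ in atTop, ∀ r : ℕ, e * q ≤ r → (r : ℝ) ≤ (1 + t') * (e * q) →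
      Odd q → Odd r → POS (HH (fun x => gg p (-x)) q r) 5 := by
  obtain ⟨A, -, hA⟩ := bound_of h3
  have hA' := bound_one hA
  have hc : Continuous (fun x => gg p (-x)) := (gg_cont h3).comp continuous_neg
  obtain ⟨x, hx, hxd⟩ := neg_prime hp h3
  obtain ⟨z00, z01, z02⟩ := hx 0 (by omega)
  obtain ⟨z10, z11, z12⟩ := hx 1 le_rfl
  have z3 := hxd 0 (by omega)
  rw [pow_zero, one_mul] at z02
  rw [pow_one, neg_one_mul] at z12
  rw [zero_add] at z3
  obtain ⟨y1, y2, y3, c0, c1, c2, c3, g1, g2, g3⟩ := hs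
  have y10 : 0 < y1 := by linarith
  have y20 : 0 < y2 := by linarith
  have y21 : y2 < 1 := by linarith
  have y31 : y3 < 1 := by linarith
  obtain ⟨t1, t10, t11, ht1⟩ := L1 hc hA oe y10 c3 g1.ne
  obtain ⟨t2, t20, t21, ht2⟩ := L1 hc hA oe y20 y21 g2.ne'
  obtain ⟨t3, t30, t31, ht3⟩ := L1 hc hA oe c0 y31 g3.ne
  refine ⟨min t1 (min t2 t3), by positivity, (min_le_left _ _).trans t11, fun t' ht' => ?_⟩
  have b1 := ht'.trans (min_le_left _ _)
  have b2 := (ht'.trans (min_le_right _ _)).trans (min_le_left _ _)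
  have b3 := (ht'.trans (min_le_right _ _)).trans (min_le_right _ _)
  have hz1 : (fun x => gg p (-x)) (x 1) ≠ 0 := by
    intro h; rw [h] at z12; linarith
  filter_upwards [ht1 t' b1, ht2 t' b2, ht3 t' b3, L2 hA' z00 z01 z02.ne',
    L2 hA' z10 z11 hz1, L0 hA e oe.pos z10 z11 hz1,
    ord2 y10 c3 z10 z11, ord1 c0 y31 z10 z11, eventually_gt_atTop 0]
    with q e1 e2 e3 f0 f1 f2 o2 o1 hq0 r her hr oq or
  have hqr : q ≤ r := (Nat.le_mul_of_pos_left q oe.pos).trans her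
  have hr2 : (r : ℝ) ≤ 2 * e * q := by
    have h2 : (0 : ℝ) ≤ e * q := by positivity
    nlinarith
  have a1 := e1 r her hr oq or
  have a2 := e2 r her hr oq or
  have a3 := e3 r her hr oq or
  have a4 := f0 r hqr
  have a5 := f1 r hqr
  have a6 := f2 r hqr hr2
  have hqr0 : q * r ≠ 0 := Nat.mul_ne_zero (by omega) (by omega)
  have hq0' : q ≠ 0 := by omega
  refine POS6 (root_facts z00 z01 hqr0).2.2 (mono_root z10 z3 hqr0) (o2 r hqr)
    (mono_root y20 c2 hq0') (mono_root c0 c1 hq0') o1 z10 ?_ ?_ ?_ ?_ ?_ ?_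
  · exact (pos_iff_pos_of_mul_pos a4).1 z02
  · exact (neg_iff_neg_of_mul_pos a5).1 (by linarith)
  · exact (pos_iff_pos_of_mul_pos a1).1 (by linarith)
  · exact (neg_iff_neg_of_mul_pos a2).1 (by linarith)
  · exact (pos_iff_pos_of_mul_pos a3).1 (by linarith)
  · exact (neg_iff_neg_of_mul_pos a6).1 (by linarith)

theorem upE3 {l e : ℕ} (hl : l.Prime) (h3 : 2 < l) (oe : Odd e) (he1 : 2 ≤ e)
    (hG : UP (GE (gg l) e) (GE' (gg' l) e) 1) : ∃ t : ℝ, 0 < t ∧ t ≤ 1 ∧
    ∀ᶠ q : ℕ in atTop, ∀ r : ℕ, q.Prime → r.Prime → e * q ≤ r → (r : ℝ) ≤ (1 + t) * (e * q) →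
      UP (gg (l * q * r)) (gg' (l * q * r)) 5 := by
  obtain ⟨t, t0, t1, ht⟩ := exists_datE (up_prime hl h3) oe hG
  refine ⟨t, t0, t1, ?_⟩
  filter_upwards [ht, eventually_gt_atTop l, eventually_gt_atTop 2] with q hq hql hq2 r pq pr hqr hr
  have hqr' : q < r := by
    have : 2 * q ≤ e * q := Nat.mul_le_mul_right q he1
    have := pq.pos
    omega
  obtain ⟨k⟩ := hq r hqr hr (pq.odd_of_ne_two (by omega)) (pr.odd_of_ne_two (by omega))
  have h1 := up_twoE (up_prime hl h3) hG k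
  have hlq : 2 < l * q := lt_of_lt_of_le h3 (Nat.le_mul_of_pos_right l pq.pos)
  have hlqr : 2 < l * q * r := lt_of_lt_of_le hlq (Nat.le_mul_of_pos_right _ pr.pos)
  have ee : (fun x => B0 (gg l) q r x - A0 (gg l) q r x + gg l x) = gg (l * q * r) :=
    HH_gg h3 pq pr hql hqr'
  rw [ee] at h1
  have e' : (fun x => B1 (gg' l) q r x - A1 (gg' l) q r x + gg' l x) = gg' (l * q * r) := by
    funext x; exact (h1.der x).unique (gg_der hlqr x)
  rwa [e'] at h1

/-- two large primes `q`, `r` with `r / q` slightly larger than `e` -/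
theorem exists_qr3 {p p' e : ℕ} (hp : p.Prime) (hp' : p'.Prime) (h3 : 2 < p) (hpp : p < p') (oe : Odd e)
    (he1 : 2 ≤ e) (hs : Samp p e) (hG : UP (GE (gg p') e) (GE' (gg' p') e) 1) (R : ℕ) :
    ∃ q r : ℕ, q.Prime ∧ r.Prime ∧ R < q ∧ p' < q ∧ q < r ∧
      UP (gg (p' * q * r)) (gg' (p' * q * r)) 5 ∧ POS (gg (p * q * r)) 2 ∧
      POS (fun x => gg (p * q * r) (-x)) 5 := by
  have h3' : 2 < p' := by omega
  obtain ⟨t1, t10, t11, ht1⟩ := upE3 hp' h3' oe he1 hG
  obtain ⟨t2, t20, t21, ht2⟩ := posL hp h3 oe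
  obtain ⟨t3, t30, t31, ht3⟩ := negL3 hp h3 oe hs
  set t : ℝ := min t1 (min t2 t3) with ht
  have t0 : 0 < t := by positivity
  have tt : t ≤ 1 := (min_le_left _ _).trans t11
  have hall := ht1.and ((ht2 t ((min_le_right _ _).trans (min_le_left _ _))).and
    ((ht3 t ((min_le_right _ _).trans (min_le_right _ _))).and
      ((exists_prime_E t0 tt oe.pos).and (eventually_gt_atTop (max R p')))))
  obtain ⟨Q, hQ⟩ := eventually_atTop.1 hall
  obtain ⟨q, hqQ, pq⟩ := Nat.exists_infinite_primes Q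
  obtain ⟨e1, e2, e3, ⟨r, pr, hr1, hr2⟩, hqR⟩ := hQ q hqQ
  have hq1 : R < q := lt_of_le_of_lt (le_max_left _ _) hqR
  have hq2 : p' < q := lt_of_le_of_lt (le_max_right _ _) hqR
  have hqr : q < r := by
    have : 2 * q ≤ e * q := Nat.mul_le_mul_right q he1
    have := pq.pos
    omega
  have oq : Odd q := pq.odd_of_ne_two (by omega)
  have or : Odd r := pr.odd_of_ne_two (by omega)
  have hpq : p < q := by omega
  have f2 := e2 r hr1.le hr2 oq or
  have f3 := e3 r hr1.le hr2 oq or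
  rw [HH_gg h3 pq pr hpq hqr] at f2
  rw [HH_neg oq or, HH_gg h3 pq pr hpq hqr] at f3
  refine ⟨q, r, pq, pr, hq1, hq2, hqr, e1 r pq pr hr1.le (hr2.trans ?_), f2, f3⟩
  have : t ≤ t1 := min_le_left _ _
  have h5 : (0 : ℝ) ≤ e * q := by positivity
  exact mul_le_mul_of_nonneg_right (by linarith) h5

end Pool.Agent.KS6_64.DC
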