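import Pool.Agent.KS6_64.DC.Ev
import Pool.Agent.KS6_64.DA.Samp
import Pool.Agent.KS6_64.DA.Sq

/-!
# `g(y) + e g(y ^ e)` for a prime `p` and an odd `e > p`
-/

set_option autoImplicit false

namespace Pool.Agent.KS6_64.DC

open Filter Topology Pool.Agent.KS6_64.CY Pool.Agent.KS6_64.CZ Pool.Agent.KS6_64.DA

variable {p e : ℕ}

/-- the coefficients and exponents of the numerator -/
def NL (p e : ℕ) : List (ℝ × ℕ) :=
  [(-1, 1), (p, p), (p - 1, p + 1), (-e, e), (-(1 + e), e + 1), (p - e, p + e),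
    (p - 1 - e, p + e + 1), (e * p, e * p), (e * p - 1, e * p + 1), (e * p + p, e * p + p),
    (e * p + p - 1, e * p + p + 1), (e * p - e, e * p + e), (e * p - 1 - e, e * p + e + 1),
    (e * p + p - e, e * p + p + e), (e * p + p - 1 - e, e * p + p + e + 1)]

/-- the lower part of `u N'(u) - e p N(u)` -/
def Lw (p e : ℕ) (u : ℝ) : ℝ :=
  (e * p - 1) * u + e * (e * p - e) * u ^ e + (e + 1) * (e * p - e - 1) * u ^ (e + 1) +
    (e - p) * (e * p - p - e) * u ^ (p + e) + (e + 1 - p) * (e * p - p - e - 1) * u ^ (p + e + 1) -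
    p * (e * p - p) * u ^ p - (p - 1) * (e * p - p - 1) * u ^ (p + 1)

theorem ev_NL (hp : p.Prime) (h3 : 2 < p) (oe : Odd e) {u : ℝ} (hu : 0 ≤ u) :
    ev (NL p e) u = (1 + u) * (1 + u ^ p) * (1 + u ^ e) * (1 + u ^ (e * p)) *
      GE (gg p) e (-u) := by
  unfold GE
  rw [oe.neg_pow, hneg hp h3 hu, hneg hp h3 (pow_nonneg hu e), ← pow_mul]
  simp only [ev, NL, List.map, List.sum_cons, List.sum_nil, pow_add, pow_one]
  have hU : 0 ≤ u ^ p := pow_nonneg hu p
  have hE : 0 ≤ u ^ e := pow_nonneg hu e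
  have hV : 0 ≤ u ^ (e * p) := pow_nonneg hu _
  generalize u ^ p = U at *
  generalize u ^ e = E at *
  generalize u ^ (e * p) = V at *
  have h1 : (1 : ℝ) + u ≠ 0 := by positivity
  have h2 : (1 : ℝ) + U ≠ 0 := by positivity
  have h4 : (1 : ℝ) + E ≠ 0 := by positivity
  have h5 : (1 : ℝ) + V ≠ 0 := by positivity
  field_simp
  ring

theorem ew_NL (h3 : 2 < p) (hpe : p < e) {u : ℝ} (hu : 0 < u) (hL : 0 < Lw p e u) :
    0 < ew (NL p e) ((e * p : ℕ) : ℝ) u := by
  have hp3 : (3 : ℝ) ≤ p := by exact_mod_cast h3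
  have he : (p : ℝ) + 1 ≤ e := by exact_mod_cast hpe
  have hep : 3 * (e : ℝ) ≤ e * p := by nlinarith
  have e1 : ew (NL p e) ((e * p : ℕ) : ℝ) u = Lw p e u +
      ((e * p - 1) * 1 * u ^ (e * p + 1) + (e * p + p) * p * u ^ (e * p + p) +
        (e * p + p - 1) * (p + 1) * u ^ (e * p + p + 1) + (e * p - e) * e * u ^ (e * p + e) +
        (e * p - 1 - e) * (e + 1) * u ^ (e * p + e + 1) +
        (e * p + p - e) * (p + e) * u ^ (e * p + p + e) +
        (e * p + p - 1 - e) * (p + e + 1) * u ^ (e * p + p + e + 1)) := by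
    simp only [ew, NL, List.map, List.sum_cons, List.sum_nil, Lw]
    push_cast
    ring
  rw [e1]
  have c1 : (0 : ℝ) ≤ e * p - 1 := by linarith
  have c2 : (0 : ℝ) ≤ e * p + p := by linarith
  have c3 : (0 : ℝ) ≤ e * p + p - 1 := by linarith
  have c4 : (0 : ℝ) ≤ e * p - e := by linarith
  have c5 : (0 : ℝ) ≤ e * p - 1 - e := by linarith
  have c6 : (0 : ℝ) ≤ e * p + p - e := by linarith
  have c7 : (0 : ℝ) ≤ e * p + p - 1 - e := by linarith
  positivity

theorem neg_zero' (hp : p.Prime) (h3 : 2 < p) (oe : Odd e) {y : ℝ} (hy : y ≠ 0)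
    (h0 : GE (gg p) e y = 0) : -1 < y ∧ y < 0 := by
  have ep : (0 : ℝ) < e := by exact_mod_cast oe.pos
  have hgp : ∀ x : ℝ, 0 < x → 0 < gg p x := fun x hx => by
    unfold gg
    exact div_pos (mul_pos hx (D_pos hp hx)) (P_pos h3 _)
  have h1 : |y| < 1 := by
    by_contra hcon
    push Not at hcon
    have a1 := (big_base hp h3 y hcon).1
    have a2 := (big_base hp h3 (y ^ e) (by rw [abs_pow]; exact one_le_pow₀ hcon)).1
    unfold GE at h0
    nlinarith
  refine ⟨(abs_lt.1 h1).1, ?_⟩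
  by_contra hcon
  push Not at hcon
  have hy0 : 0 < y := lt_of_le_of_ne hcon (Ne.symm hy)
  have a1 := hgp y hy0
  have a2 := hgp (y ^ e) (pow_pos hy0 e)
  unfold GE at h0
  nlinarith [mul_pos ep a2]

theorem up_GE2 (hp : p.Prime) (h3 : 2 < p) (oe : Odd e) (hpe : p < e)
    (hL : ∀ u, 0 < u → u < 1 → 0 < Lw p e u) : UP (GE (gg p) e) (GE' (gg' p) e) 1 := by
  have hW : ∀ u, 0 < u → u < 1 → 0 < ew (NL p e) ((e * p : ℕ) : ℝ) u := fun u u0 u1 =>
    ew_NL h3 hpe u0 (hL u u0 u1)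
  have hz : ∀ y, y ≠ 0 → GE (gg p) e y = 0 → 0 < -y ∧ -y < 1 ∧ ev (NL p e) (-y) = 0 := by
    intro y hy h0
    obtain ⟨a, b⟩ := neg_zero' hp h3 oe hy h0
    refine ⟨by linarith, by linarith, ?_⟩
    rw [ev_NL hp h3 oe (by linarith), neg_neg, h0, mul_zero]
  have huniq : ∀ x ∈ {x | x ≠ 0 ∧ GE (gg p) e x = 0}, ∀ y ∈ {x | x ≠ 0 ∧ GE (gg p) e x = 0},
      x = y := by
    intro x hx y hy
    obtain ⟨x1, x2, x3⟩ := hz x hx.1 hx.2
    obtain ⟨y1, y2, y3⟩ := hz y hy.1 hy.2
    rcases lt_trichotomy x y with h | h | h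
    · exact (uniq hW y1 (by linarith) x2 y3 x3).elim
    · exact h
    · exact (uniq hW x1 (by linarith) y2 x3 y3).elim
  have hfin : {x | x ≠ 0 ∧ GE (gg p) e x = 0}.Finite := Set.Subsingleton.finite huniq
  have hder : ∀ x, HasDerivAt (GE (gg p) e) (GE' (gg' p) e x) x := by
    intro x
    have d1 := gg_der h3 x
    have d2 := ((gg_der h3 (x ^ e)).comp x (hasDerivAt_pow e x)).const_mul (e : ℝ)
    exact d1.add d2
  have hup := up_prime hp h3
  have e1 : e - 1 ≠ 0 := by omega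
  refine ⟨hder, ?_, ?_, ?_, ⟨1 / 2, p + e * p, by norm_num, ?_⟩, hfin,
    (Set.ncard_le_one hfin).2 huniq, ?_⟩
  · have hc := gg'_cont h3
    unfold GE'
    fun_prop
  · unfold GE
    rw [zero_pow oe.pos.ne', gg_zero]; ring
  · unfold GE'
    rw [zero_pow e1, mul_zero, mul_zero, mul_zero, add_zero]
    exact hup.tau
  · intro x hx
    have a1 := big_base hp h3 x hx
    have a2 := big_base hp h3 (x ^ e) (by rw [abs_pow]; exact one_le_pow₀ hx)
    have ep : (0 : ℝ) < e := by exact_mod_cast oe.pos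
    unfold GE
    constructor
    · nlinarith
    · have := mul_le_mul_of_nonneg_left a2.2 ep.le
      linarith
  · intro x hx h0 hd
    obtain ⟨x1, x2, x3⟩ := hz x hx h0
    set u : ℝ := -x with hu
    have hxu : x = -u := by rw [hu, neg_neg]
    have d1 : HasDerivAt (fun v => GE (gg p) e (-v)) 0 u := by
      have h1 := (hder (-u)).comp u (hasDerivAt_neg u)
      rw [← hxu, hd, zero_mul] at h1
      exact h1
    have d2 : DifferentiableAt ℝ
        (fun v : ℝ => (1 + v) * (1 + v ^ p) * (1 + v ^ e) * (1 + v ^ (e * p))) u := by fun_prop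
    have d3 := d2.hasDerivAt.mul d1
    have h4 : GE (gg p) e (-u) = 0 := by rw [← hxu]; exact h0
    have d4 : HasDerivAt (ev (NL p e)) 0 u := by
      have h5 : (fun v => (fun v : ℝ => (1 + v) * (1 + v ^ p) * (1 + v ^ e) * (1 + v ^ (e * p))) v *
          GE (gg p) e (-v)) =ᶠ[𝓝 u] ev (NL p e) := by
        filter_upwards [lt_mem_nhds x1] with v hv
        exact (ev_NL hp h3 oe hv.le).symm
      have h6 := d3.congr_of_eventuallyEq h5.symm
      simp only [h4, mul_zero, add_zero] at h6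
      exact h6
    have h7 : ev' (NL p e) u = 0 := (ev_der (NL p e) u).unique d4
    have h8 := ew_eq (NL p e) ((e * p : ℕ) : ℝ) u
    rw [h7, x3, mul_zero, mul_zero, sub_zero] at h8
    have h9 := hW u x1 x2
    linarith

end Pool.Agent.KS6_64.DC
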